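import Pool.Agent.Helper45.TY.Count

/-!
A one-tape machine with few states which checks in few steps that a word over `{0, 1, 2}` contains
no letter `2` and satisfies the parity conditions given by the rows of a matrix.
-/

set_option autoImplicit false

open Finset

namespace Pool.Agent.Helper47.TY

open Pool.Agent.Helper45.TY

section

variable {n : ℕ}

/-- the entries of the matrix, for natural numbers -/
def ent (H : Fin n → Fin n → Bool) (k i : ℕ) : Bool :=
  if h : k < n ∧ i < n then H ⟨k, h.1⟩ ⟨i, h.2⟩ else false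

/-- The machine: the state `(t, b)` contains the time `t` and a parity `b`. In the `k`-th sweep
(`2 n k ≤ t < 2 n (k + 1)`) the head goes from the cell `0` to the cell `n` and back. -/
def checker (H : Fin n → Fin n → Bool) :
    Machine (Fin (2 * n * n + 1) × Bool) (Option (Fin 3)) where
  step p g p' g' d := g' = g ∧ p'.1.val = p.1.val + 1 ∧
    ((p.1.val % (2 * n) < n ∧ d = Dir.right ∧ ∃ a : Fin 3, g = some a ∧ a ≠ 2 ∧
        p'.2 = xor p.2 (ent H (p.1.val / (2 * n)) (p.1.val % (2 * n)) && decide (a = 1))) ∨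
      (p.1.val % (2 * n) = n ∧ d = Dir.left ∧ p.2 = false ∧ p'.2 = false) ∨
      (n < p.1.val % (2 * n) ∧ d = Dir.left ∧ p'.2 = p.2))
  start := (0, false)
  accept p := p.1.val = 2 * n * n

/-- the letters of the word, for natural numbers -/
def let' (w : Fin n → Fin 3) (i : ℕ) : Fin 3 := if h : i < n then w ⟨i, h⟩ else 0

/-- the number of the first `m` entries of the row `k` at which the word has the letter `1` -/
def cnt (H : Fin n → Fin n → Bool) (w : Fin n → Fin 3) (k m : ℕ) : ℕ :=
  ∑ i ∈ range m, if (ent H k i && decide (let' w i = 1)) = true then 1 else 0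

/-- the parity at the time `t` -/
def par (H : Fin n → Fin n → Bool) (w : Fin n → Fin 3) (t : ℕ) : Bool :=
  if t % (2 * n) ≤ n then decide (cnt H w (t / (2 * n)) (t % (2 * n)) % 2 = 1) else false

/-- the position at the time `t` -/
def pos (n t : ℕ) : ℤ :=
  ((if t % (2 * n) ≤ n then t % (2 * n) else 2 * n - t % (2 * n) : ℕ) : ℤ)

/-- the configuration at the time `t` -/
def conf (H : Fin n → Fin n → Bool) (w : Fin n → Fin 3) (t : ℕ) (ht : t < 2 * n * n + 1) :
    Config (Fin (2 * n * n + 1) × Bool) (Option (Fin 3)) :=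
  ⟨(⟨t, ht⟩, par H w t), pos n t, inputTape (fun _ o => o) w⟩

/-- the check at the time `t` -/
def Chk (H : Fin n → Fin n → Bool) (w : Fin n → Fin 3) (t : ℕ) : Prop :=
  (t % (2 * n) < n → let' w (t % (2 * n)) ≠ 2) ∧
    (t % (2 * n) = n → cnt H w (t / (2 * n)) n % 2 = 0)

lemma succ_cases (hn : 1 ≤ n) (t : ℕ) :
    (t % (2 * n) + 1 < 2 * n ∧ (t + 1) % (2 * n) = t % (2 * n) + 1 ∧
        (t + 1) / (2 * n) = t / (2 * n)) ∨
      (t % (2 * n) + 1 = 2 * n ∧ (t + 1) % (2 * n) = 0 ∧ (t + 1) / (2 * n) = t / (2 * n) + 1) := by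
  have hpos : 0 < 2 * n := by omega
  have h1 := Nat.div_add_mod t (2 * n)
  have h2 := Nat.mod_lt t hpos
  rcases Nat.lt_or_ge (t % (2 * n) + 1) (2 * n) with h | h
  · left
    have e : t + 1 = (t % (2 * n) + 1) + 2 * n * (t / (2 * n)) := by omega
    refine ⟨h, ?_, ?_⟩
    · conv_lhs => rw [e]
      rw [Nat.add_mul_mod_self_left, Nat.mod_eq_of_lt h]
    · conv_lhs => rw [e]
      rw [Nat.add_mul_div_left _ _ hpos, Nat.div_eq_of_lt h, zero_add]
  · right
    have h3 : t % (2 * n) + 1 = 2 * n := by omega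
    have e : t + 1 = 0 + 2 * n * (t / (2 * n) + 1) := by
      rw [Nat.mul_add]
      omega
    refine ⟨h3, ?_, ?_⟩
    · conv_lhs => rw [e]
      rw [Nat.add_mul_mod_self_left, Nat.zero_mod]
    · conv_lhs => rw [e]
      rw [Nat.add_mul_div_left _ _ hpos, Nat.zero_div, zero_add]

lemma tape_pos (w : Fin n → Fin 3) {t : ℕ} (h : t % (2 * n) < n) :
    inputTape (fun _ o => o) w (pos n t) = some (let' w (t % (2 * n))) := by
  have h1 : pos n t = ((t % (2 * n) : ℕ) : ℤ) := by
    unfold pos
    rw [if_pos h.le]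
  unfold inputTape let'
  rw [h1]
  generalize t % (2 * n) = s at h
  rw [dif_pos ⟨Int.natCast_nonneg s, Int.ofNat_lt.2 h⟩, dif_pos h]
  simp

lemma pos_succ_right (hn : 1 ≤ n) {t : ℕ} (h : t % (2 * n) < n) :
    pos n (t + 1) = pos n t + 1 := by
  unfold pos
  rcases succ_cases hn t with ⟨h1, h2, -⟩ | ⟨h1, h2, -⟩
  · rw [h2]
    generalize t % (2 * n) = s at h h1
    rw [if_pos (by omega), if_pos (by omega)]
    push_cast
    rfl
  · generalize t % (2 * n) = s at h h1
    omega

lemma pos_succ_left (hn : 1 ≤ n) {t : ℕ} (h : n ≤ t % (2 * n)) :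
    pos n (t + 1) = pos n t - 1 := by
  unfold pos
  rcases succ_cases hn t with ⟨h1, h2, -⟩ | ⟨h1, h2, -⟩
  · rw [h2]
    generalize t % (2 * n) = s at h h1
    rw [if_neg (by omega)]
    split_ifs with h3
    · omega
    · omega
  · rw [h2]
    generalize t % (2 * n) = s at h h1
    rw [if_pos (by omega)]
    split_ifs with h3
    · omega
    · omega

lemma par_succ_right (hn : 1 ≤ n) (H : Fin n → Fin n → Bool) (w : Fin n → Fin 3) {t : ℕ}
    (h : t % (2 * n) < n) :
    par H w (t + 1) = xor (par H w t)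
      (ent H (t / (2 * n)) (t % (2 * n)) && decide (let' w (t % (2 * n)) = 1)) := by
  rcases succ_cases hn t with ⟨h1, h2, h3⟩ | ⟨h1, h2, h3⟩
  · unfold par
    rw [h2, h3, if_pos (by omega), if_pos (by omega)]
    have e : cnt H w (t / (2 * n)) (t % (2 * n) + 1) = cnt H w (t / (2 * n)) (t % (2 * n)) +
        if (ent H (t / (2 * n)) (t % (2 * n)) && decide (let' w (t % (2 * n)) = 1)) = true
          then 1 else 0 := Finset.sum_range_succ _ _
    rw [e]
    generalize cnt H w (t / (2 * n)) (t % (2 * n)) = x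
    cases (ent H (t / (2 * n)) (t % (2 * n)) && decide (let' w (t % (2 * n)) = 1))
    · simp
    · rw [if_pos rfl, Bool.xor_true, eq_comm, ← decide_not]
      exact decide_eq_decide.2 (by omega)
  · omega

lemma par_succ_mid (hn : 1 ≤ n) (H : Fin n → Fin n → Bool) (w : Fin n → Fin 3) {t : ℕ}
    (h : n ≤ t % (2 * n)) : par H w (t + 1) = false := by
  unfold par
  rcases succ_cases hn t with ⟨h1, h2, h3⟩ | ⟨h1, h2, h3⟩
  · rw [h2, if_neg (by omega)]
  · rw [h2, if_pos (by omega)]
    simp [cnt]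

lemma par_mid (H : Fin n → Fin n → Bool) (w : Fin n → Fin 3) {t : ℕ}
    (h : t % (2 * n) = n) : par H w t = false ↔ cnt H w (t / (2 * n)) n % 2 = 0 := by
  unfold par
  rw [h, if_pos le_rfl, decide_eq_false_iff_not]
  omega

lemma par_late (H : Fin n → Fin n → Bool) (w : Fin n → Fin 3) {t : ℕ}
    (h : n < t % (2 * n)) : par H w t = false := by
  unfold par
  rw [if_neg (by omega)]

/-- one step -/
lemma next_conf (hn : 1 ≤ n) (H : Fin n → Fin n → Bool) (w : Fin n → Fin 3) {t : ℕ}
    (ht : t < 2 * n * n) (hc : Chk H w t) :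
    (checker H).Next (conf H w t (by omega)) (conf H w (t + 1) (by omega)) := by
  rcases lt_trichotomy (t % (2 * n)) n with h | h | h
  · refine ⟨Dir.right, ⟨rfl, rfl, Or.inl ⟨h, rfl, let' w (t % (2 * n)), ?_, hc.1 h, ?_⟩⟩, ?_, ?_⟩
    · exact tape_pos w h
    · exact par_succ_right hn H w h
    · exact pos_succ_right hn h
    · exact fun _ _ => rfl
  · refine ⟨Dir.left, ⟨rfl, rfl, Or.inr (Or.inl ⟨h, rfl, ?_, ?_⟩)⟩, ?_, ?_⟩
    · exact (par_mid H w h).2 (hc.2 h)
    · exact par_succ_mid hn H w h.ge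
    · exact pos_succ_left hn h.ge
    · exact fun _ _ => rfl
  · refine ⟨Dir.left, ⟨rfl, rfl, Or.inr (Or.inr ⟨h, rfl, ?_⟩)⟩, ?_, ?_⟩
    · exact (par_succ_mid hn H w h.le).trans (par_late H w h).symm
    · exact pos_succ_left hn h.le
    · exact fun _ _ => rfl

/-- the machine has no other steps -/
lemma of_next_conf (hn : 1 ≤ n) (H : Fin n → Fin n → Bool) (w : Fin n → Fin 3) {t : ℕ}
    (ht : t < 2 * n * n + 1) {c : Config (Fin (2 * n * n + 1) × Bool) (Option (Fin 3))}
    (h : (checker H).Next (conf H w t ht) c) :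
    Chk H w t ∧ ∃ h' : t + 1 < 2 * n * n + 1, c = conf H w (t + 1) h' := by
  obtain ⟨d, ⟨hg, hp, hs⟩, hd, htape⟩ := h
  obtain ⟨⟨t', b'⟩, pos', tape'⟩ := c
  simp only [conf] at hg hp hs hd htape
  have ht' : t + 1 < 2 * n * n + 1 := by
    rw [← hp]
    exact t'.2
  have e1 : t' = ⟨t + 1, ht'⟩ := Fin.ext hp
  have e2 : tape' = inputTape (fun _ o => o) w := by
    funext z
    by_cases hz : z = pos n t
    · rw [hz]
      exact hg
    · exact htape z hz
  rcases hs with ⟨hs, hdir, a, ha, ha2, hb⟩ | ⟨hs, hdir, hb0, hb⟩ | ⟨hs, hdir, hb⟩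
  · rw [tape_pos w hs, Option.some.injEq] at ha
    rw [← ha] at ha2 hb
    refine ⟨⟨fun _ => ha2, fun h => absurd h hs.ne⟩, ht', ?_⟩
    rw [← par_succ_right hn H w hs] at hb
    rw [hdir] at hd
    have e3 : pos' = pos n (t + 1) := by
      rw [pos_succ_right hn hs]
      exact hd
    rw [e1, e2, e3, hb]
    rfl
  · refine ⟨⟨fun h => absurd hs h.ne, fun _ => (par_mid H w hs).1 hb0⟩, ht', ?_⟩
    rw [← par_succ_mid hn H w hs.ge] at hb
    rw [hdir] at hd
    have e3 : pos' = pos n (t + 1) := by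
      rw [pos_succ_left hn hs.ge]
      exact hd
    rw [e1, e2, e3, hb]
    rfl
  · refine ⟨⟨fun h => absurd hs (by omega), fun h => absurd h hs.ne'⟩, ht', ?_⟩
    rw [par_late H w hs, ← par_succ_mid hn H w hs.le] at hb
    rw [hdir] at hd
    have e3 : pos' = pos n (t + 1) := by
      rw [pos_succ_left hn hs.le]
      exact hd
    rw [e1, e2, e3, hb]
    rfl

lemma reach_conf (hn : 1 ≤ n) (H : Fin n → Fin n → Bool) (w : Fin n → Fin 3)
    (hc : ∀ t < 2 * n * n, Chk H w t) (j : ℕ) : ∀ (t : ℕ) (ht : t + j < 2 * n * n + 1),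
      (checker H).Reach j (conf H w t (by omega)) (conf H w (t + j) ht) := by
  induction j with
  | zero => exact fun t ht => .refl _
  | succ j ih =>
    intro t ht
    refine .cons (next_conf hn H w (by omega) (hc t (by omega))) ?_
    have h := ih (t + 1) (by omega)
    have e : t + 1 + j = t + (j + 1) := by omega
    simp only [e] at h
    exact h

lemma of_reach_conf (hn : 1 ≤ n) (H : Fin n → Fin n → Bool) (w : Fin n → Fin 3) {j : ℕ}
    {c c' : Config (Fin (2 * n * n + 1) × Bool) (Option (Fin 3))}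
    (h : (checker H).Reach j c c') : ∀ (t : ℕ) (ht : t < 2 * n * n + 1), c = conf H w t ht →
      (∀ t', t ≤ t' → t' < t + j → Chk H w t') ∧
        ∃ h' : t + j < 2 * n * n + 1, c' = conf H w (t + j) h' := by
  induction h with
  | refl c =>
    intro t ht hc
    exact ⟨fun t' h1 h2 => absurd h1 (by omega), ht, hc⟩
  | @cons j c1 c2 c3 h1 _ ih =>
    intro t ht hc
    rw [hc] at h1
    obtain ⟨h3, h4, h5⟩ := of_next_conf hn H w ht h1
    obtain ⟨h6, h7, h8⟩ := ih (t + 1) h4 h5
    refine ⟨fun t' ht1 ht2 => ?_, by omega, ?_⟩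
    · rcases Nat.eq_or_lt_of_le ht1 with h | h
      · rwa [← h]
      · exact h6 t' h (by omega)
    · have e : t + 1 + j = t + (j + 1) := by omega
      simp only [e] at h8
      exact h8

lemma init_eq (H : Fin n → Fin n → Bool) (w : Fin n → Fin 3) :
    (checker H).init (fun _ o => o) w = conf H w 0 (by omega) := by
  have h1 : par H w 0 = false := by
    unfold par
    rw [Nat.zero_mod, if_pos (by omega)]
    simp [cnt]
  have h2 : pos n 0 = 0 := by
    unfold pos
    rw [Nat.zero_mod]
    simp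
  unfold Machine.init conf
  rw [h1, h2]
  rfl

lemma cnt_eq (H : Fin n → Fin n → Bool) (w : Fin n → Fin 3) (k : Fin n) :
    cnt H w k n = #{i : Fin n | H k i = true ∧ w i = 1} := by
  unfold cnt
  rw [Finset.sum_range, card_filter]
  refine Finset.sum_congr rfl fun i _ => ?_
  have e1 : ent H k i = H k i := by
    unfold ent
    rw [dif_pos ⟨k.2, i.2⟩]
  have e2 : let' w i = w i := by
    unfold let'
    rw [dif_pos i.2]
  rw [e1, e2]
  by_cases h1 : H k i = true <;> by_cases h2 : w i = 1 <;> simp [h1, h2]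

/-- the conditions which are checked -/
lemma chk_iff (hn : 1 ≤ n) (H : Fin n → Fin n → Bool) (w : Fin n → Fin 3) :
    (∀ t < 2 * n * n, Chk H w t) ↔
      (∀ i, w i ≠ 2) ∧ ∀ k, Even #{i : Fin n | H k i = true ∧ w i = 1} := by
  have hpos : 0 < 2 * n := by omega
  constructor
  · intro h
    constructor
    · intro i
      have h1 : (i : ℕ) % (2 * n) = i := Nat.mod_eq_of_lt (by omega)
      have h2 : (i : ℕ) < 2 * n * n := by
        have := i.2
        nlinarith
      have h3 := (h i h2).1 (by rw [h1]; exact i.2)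
      rw [h1] at h3
      unfold let' at h3
      rw [dif_pos i.2] at h3
      exact h3
    · intro k
      have h1 : (n + 2 * n * k) % (2 * n) = n := by
        rw [Nat.add_mul_mod_self_left, Nat.mod_eq_of_lt (by omega)]
      have h2 : (n + 2 * n * k) / (2 * n) = k := by
        rw [Nat.add_mul_div_left _ _ hpos, Nat.div_eq_of_lt (by omega), zero_add]
      have h3 : n + 2 * n * k < 2 * n * n := by
        have := k.2
        nlinarith
      have h4 := (h _ h3).2 h1
      rw [h2, cnt_eq] at h4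
      exact Nat.even_iff.2 h4
  · rintro ⟨h1, h2⟩ t ht
    refine ⟨fun h => ?_, fun h => ?_⟩
    · unfold let'
      rw [dif_pos h]
      exact h1 _
    · have h3 : t / (2 * n) < n := Nat.div_lt_of_lt_mul ht
      have h4 := cnt_eq H w ⟨t / (2 * n), h3⟩
      rw [show cnt H w (t / (2 * n)) n = _ from h4]
      exact Nat.even_iff.1 (h2 _)

/-- **The checker.** The machine with the states `(t, b)`, `t ≤ 2 n ^ 2`, `b` a bit, accepts the
word `w` in `{0, 1, 2} ^ n` iff `w` has no letter `2` and satisfies the parity conditions given by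
the rows of `H`; then it accepts in at most `2 n ^ 2` steps. -/
theorem checker_spec (hn : 1 ≤ n) (H : Fin n → Fin n → Bool) (w : Fin n → Fin 3) :
    ((checker H).Accepts ((checker H).init (fun _ o => o) w) ↔
      (∀ i, w i ≠ 2) ∧ ∀ k, Even #{i : Fin n | H k i = true ∧ w i = 1}) ∧
    ((checker H).Accepts ((checker H).init (fun _ o => o) w) →
      (checker H).AcceptsIn (2 * n * n) ((checker H).init (fun _ o => o) w)) := by
  have key : (checker H).Accepts ((checker H).init (fun _ o => o) w) →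
      ∀ t < 2 * n * n, Chk H w t := by
    rintro ⟨j, c', hr, hacc⟩
    rw [init_eq] at hr
    obtain ⟨h1, h2, h3⟩ := of_reach_conf hn H w hr 0 (by omega) rfl
    rw [h3] at hacc
    have h4 : 0 + j = 2 * n * n := hacc
    exact fun t ht => h1 t (Nat.zero_le t) (by omega)
  have key2 : (∀ t < 2 * n * n, Chk H w t) →
      (checker H).AcceptsIn (2 * n * n) ((checker H).init (fun _ o => o) w) := by
    intro h
    refine ⟨2 * n * n, le_rfl, conf H w (0 + 2 * n * n) (by omega), ?_, ?_⟩
    · rw [init_eq]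
      exact reach_conf hn H w h _ 0 _
    · change 0 + 2 * n * n = 2 * n * n
      omega
  refine ⟨⟨fun h => (chk_iff hn H w).1 (key h), fun h => ?_⟩, fun h => key2 (key h)⟩
  exact (key2 ((chk_iff hn H w).2 h)).accepts

/-- The machine of the checker has at most `6 n ^ 2` states. -/
theorem checker_card (hn : 1 ≤ n) : Fintype.card (Fin (2 * n * n + 1) × Bool) ≤ 6 * n ^ 2 := by
  rw [Fintype.card_prod, Fintype.card_fin, Fintype.card_bool]
  nlinarith

end

end Pool.Agent.Helper47.TY
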